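import Pool.Agent.Helper89.TangYan.Final

/-!
# A negative answer to the question of Tang and Yan

For every `n ≥ 12` and every `ε > 0` the unit sphere `S^{n+1} ⊂ ℝ^{n+2}` contains a closed
(compact, connected) embedded minimal submanifold `M` of dimension `d = n - 3 ≥ (2/3) n + 1`
whose Laplacian has an eigenvalue in `(0, ε)`; in particular `λ₁(M) ≠ d`.
-/

set_option autoImplicit false

open Pool.Agent.Helper89.TangYan Module

namespace Pool.Agent.Results.MP_b0f4c2_gt.TangYanCounterexample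

theorem result (n : ℕ) (hn : 12 ≤ n) (ε : ℝ) (hε : 0 < ε) :
    ∃ (d : ℕ) (M : Set (EuclideanSpace ℝ (Fin (n + 2)))),
      d + 3 = n ∧ (2 / 3 : ℝ) * n + 1 ≤ d ∧
      IsCompact M ∧ IsConnected M ∧ IsEmbeddedSubmanifold d M ∧ IsMinimalInUnitSphere d M ∧
      (∃ μ : ℝ, 0 < μ ∧ μ < ε ∧ μ < d ∧ IsLaplaceEigenvalue d M μ) ∧
      ¬ IsFirstEigenvalue d M d := by
  obtain ⟨m, rfl⟩ : ∃ m, n = m + 5 := ⟨n - 5, by omega⟩
  have hm : 1 ≤ m := by omega
  -- choose `k` with `(m + 2) / k ^ 2 < min ε 1`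
  obtain ⟨k, hk⟩ := exists_nat_gt (((m:ℝ) + 2) / min ε 1)
  have hmin : 0 < min ε 1 := lt_min hε one_pos
  have hm2 : (0:ℝ) < m + 2 := by positivity
  have hk0 : (0:ℝ) < k := lt_trans (div_pos hm2 hmin) hk
  have hk1 : 1 ≤ k := by exact_mod_cast hk0
  have hk1' : (1:ℝ) ≤ k := by exact_mod_cast hk1
  obtain ⟨r, μ, ρ, hp⟩ := exists_params k m hk1 hm
  have he : Orthonormal ℝ fun i : Fin 6 =>
      (EuclideanSpace.basisFun (Fin (m + 5 + 2)) ℝ) (Fin.castLE (by omega) i) :=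
    (EuclideanSpace.basisFun (Fin (m + 5 + 2)) ℝ).orthonormal.comp _ (Fin.castLE_injective _)
  have hV : finrank ℝ (EuclideanSpace ℝ (Fin (m + 5 + 2))) = m + 7 := by simp
  let D : Dec (EuclideanSpace ℝ (Fin (m + 5 + 2))) := Dec.ofOrthonormal _ he
  have hlt : ((m:ℝ) + 2) / (k:ℝ) ^ 2 < min ε 1 := by
    rw [div_lt_iff₀ (by positivity)]
    rw [div_lt_iff₀ hmin] at hk
    nlinarith
  have hμ : ∃ μ : ℝ, 0 < μ ∧ μ < ε ∧ μ < ((m + 2 : ℕ) : ℝ) ∧ IsLaplaceEigenvalue (m + 2) (exM D k r _) μ :=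
    ⟨((m:ℝ) + 2) / (k:ℝ) ^ 2, by positivity, lt_of_lt_of_le hlt (min_le_left _ _),
      by push_cast; linarith [min_le_right ε 1], exM_eigenvalue hp hV⟩
  refine ⟨m + 2, exM D k r μ, by omega, ?_, exM_compact, exM_connected hp hV, exM_embedded hp hV,
    exM_minimal hp hV, hμ, ?_⟩
  · push_cast
    have : (7:ℝ) ≤ m := by exact_mod_cast (by omega : 7 ≤ m)
    linarith
  · intro hfirst
    obtain ⟨ν, h1, -, h2, h3⟩ := hμ
    exact absurd (hfirst.2 ⟨h1, h3⟩) (not_le.mpr h2)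

end Pool.Agent.Results.MP_b0f4c2_gt.TangYanCounterexample
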